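import Pool.Agent.Q192.ARC.Main

/-! MP_85e89d_gt, Q1: disproof, in the plane. -/

set_option autoImplicit false

open Pool.Agent.Q192.ARC MeasureTheory

namespace Pool.Agent.Results.MP_85e89d_gt.AnalyticArcsNotSmooth

/-- There is a covering of the plane by non-overlapping rectifiable arcs of length at least `1/2`,
each of them a subarc of a `C^ω` curve, which is not smooth at the points of a set of positive
measure. The endpoints of all the arcs lie on the horizontal lines of integer height (a closed
set of measure zero), so that smoothness fails almost everywhere on that set because the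
directions of the tangent lines do not settle down. -/
theorem result :
    ∃ 𝓕 : Set DiffArc, IsCovering (1 / 2) 𝓕 ∧ (∀ a ∈ 𝓕, ContDiff ℝ ⊤ a.γ) ∧
      (∀ a ∈ 𝓕, ∀ p : ℂ, a.IsEndpoint p → ∃ n : ℤ, p.im = n) ∧
      0 < volume {p : ℂ | ¬ DirectionsSettleAt 𝓕 p} ∧ 0 < volume {p : ℂ | ¬ SmoothAt 𝓕 p} := by
  obtain ⟨K, hKne, hKc, hKpos, hK⟩ := exists_K
  have hpos : 0 < volume {p : ℂ | ¬ DirectionsSettleAt (fam K) p} := by
    have h1 : {p : ℂ | p.re ∈ K} ⊆ {p : ℂ | ¬ DirectionsSettleAt (fam K) p} :=
      fun p hp => not_settle K hKne hKc hK hp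
    refine lt_of_lt_of_le ?_ (measure_mono h1)
    have h2 : volume {p : ℂ | p.re ∈ K} = volume (K ×ˢ (Set.univ : Set ℝ)) := by
      have h3 := Complex.volume_preserving_equiv_real_prod.measure_preimage
        (hKc.measurableSet.prod MeasurableSet.univ).nullMeasurableSet
      rw [← h3]
      congr 1
      ext p
      simp
    rw [h2, Measure.volume_eq_prod, Measure.prod_prod, Real.volume_univ]
    exact ENNReal.mul_pos hKpos.ne' ENNReal.top_ne_zero
  refine ⟨fam K, fam_covering K, ?_, fun a ha p hp => fam_endpoint K ha hp, hpos, ?_⟩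
  · rintro _ ⟨⟨x, n⟩, rfl⟩
    exact contDiff_curve K x
  · exact lt_of_lt_of_le hpos (measure_mono fun p hp h => hp h.settle)

end Pool.Agent.Results.MP_85e89d_gt.AnalyticArcsNotSmooth
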